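import Pool.Agent.NBP.Defs
import Pool.Agent.JT.CircDefs

/-! The circuit (Bellman and Ford) of a nondeterministic branching program: every contact is used
`m` times, and the accepting paths become justification trees. -/

set_option autoImplicit false

namespace Pool.Agent.NBP

open Pool.Agent.JT

variable {m : ℕ}

/-- the contact used in step `t` -/
def jt (hm : 0 < m) (t : ℕ) : Fin m := ⟨t % m, Nat.mod_lt _ hm⟩

/-- the wire which tells after `t` steps whether the node `v` is reached (`inl`: inputs of the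
circuit, `inr`: gates) -/
def rr (P : Prog m) (hm : 0 < m) : ℕ → Fin P.nodes → Fin (m + 2) ⊕ ℕ
  | 0, v => if v = P.source then .inl ⟨m, by omega⟩ else .inl ⟨m + 1, by omega⟩
  | t + 1, v => if v = P.dst (jt hm t) then .inr (2 * t + 1) else rr P hm t v

/-- a wire as a node of a circuit with `n` gates -/
def conv (n : ℕ) : Fin (m + 2) ⊕ ℕ → Fin (m + 2) ⊕ Fin n
  | .inl i => .inl i
  | .inr g => if h : g < n then .inr ⟨g, h⟩ else .inl ⟨0, by omega⟩

theorem rr_lt (P : Prog m) (hm : 0 < m) : ∀ (t : ℕ) (v : Fin P.nodes) (g : ℕ),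
    rr P hm t v = .inr g → g < 2 * t := by
  intro t
  induction t with
  | zero =>
    intro v g h
    unfold rr at h
    split_ifs at h
  | succ t ih =>
    intro v g h
    unfold rr at h
    split_ifs at h with h1
    · rw [Sum.inr.injEq] at h
      omega
    · have := ih v g h
      omega

/-- the circuit with `T` steps -/
def circ (P : Prog m) (hm : 0 < m) (T : ℕ) : Circuit (m + 2) where
  size := 2 * T
  gate g := if (g : ℕ) % 2 = 0 then
      .and (conv g (rr P hm (g / 2) (P.src (jt hm (g / 2))))) (.inl (Fin.castAdd 2 (jt hm (g / 2))))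
    else .or (conv g (rr P hm (g / 2) (P.dst (jt hm (g / 2))))) (conv g (.inr ((g : ℕ) - 1)))
  out := conv (2 * T) (rr P hm T P.target)

theorem node_conv (P : Prog m) (hm : 0 < m) (T n : ℕ) (hn : n < 2 * T)
    (w : Fin (m + 2) ⊕ ℕ) (h : ∀ g', w = .inr g' → g' < n) :
    (circ P hm T).node (g := ⟨n, hn⟩) (conv n w) = conv (2 * T) w := by
  rcases w with i | g'
  · rfl
  · have h1 : g' < n := h g' rfl
    have h2 : g' < 2 * T := h1.trans hn
    simp only [conv, h1, h2, dif_pos]
    rfl

theorem just_conv {P : Prog m} {hm : 0 < m} {T n : ℕ} (hn : n < 2 * T)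
    {w : Fin (m + 2) ⊕ ℕ} (h : ∀ g', w = .inr g' → g' < n) {y : Fin (m + 2) → Bool} {b : Bool}
    {l : List (Fin (m + 2))} (h1 : (circ P hm T).Just y (conv (2 * T) w) b l) :
    (circ P hm T).Just y ((circ P hm T).node (g := ⟨n, hn⟩) (conv n w)) b l :=
  (congrArg (fun z => (circ P hm T).Just y z b l) (node_conv P hm T n hn w h)).mpr h1

theorem val_conv {P : Prog m} {hm : 0 < m} {T n : ℕ} (hn : n < 2 * T)
    {w : Fin (m + 2) ⊕ ℕ} (h : ∀ g', w = .inr g' → g' < n) {y : Fin (m + 2) → Bool} {b : Bool}
    (h1 : (circ P hm T).val y ((circ P hm T).node (g := ⟨n, hn⟩) (conv n w)) = b) :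
    (circ P hm T).val y (conv (2 * T) w) = b :=
  (congrArg (fun z => (circ P hm T).val y z = b) (node_conv P hm T n hn w h)).mp h1

theorem gate_and (P : Prog m) (hm : 0 < m) (T t : ℕ) (h : 2 * t < 2 * T) :
    (circ P hm T).gate ⟨2 * t, h⟩ = .and (conv (2 * t) (rr P hm t (P.src (jt hm t))))
      (.inl (Fin.castAdd 2 (jt hm t))) := by
  have h1 : (2 * t) % 2 = 0 := by omega
  have h2 : (2 * t) / 2 = t := by omega
  show (if (2 * t) % 2 = 0 then _ else _) = _
  rw [if_pos h1, h2]

theorem gate_or (P : Prog m) (hm : 0 < m) (T t : ℕ) (h : 2 * t + 1 < 2 * T) :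
    (circ P hm T).gate ⟨2 * t + 1, h⟩ = .or (conv (2 * t + 1) (rr P hm t (P.dst (jt hm t))))
      (conv (2 * t + 1) (.inr (2 * t))) := by
  have h1 : ¬ (2 * t + 1) % 2 = 0 := by omega
  have h2 : (2 * t + 1) / 2 = t := by omega
  show (if (2 * t + 1) % 2 = 0 then _ else _) = _
  rw [if_neg h1, h2]
  rfl

/-- the justification trees of the wire of `v` after `t` steps of weight at most `K` -/
def Has (P : Prog m) (hm : 0 < m) (T : ℕ) (y : Fin (m + 2) → Bool) (w : Fin (m + 2) → ℕ)
    (t : ℕ) (v : Fin P.nodes) (K : ℕ) : Prop :=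
  ∃ l, (circ P hm T).Just y (conv (2 * T) (rr P hm t v)) true l ∧ (l.map w).sum ≤ K

variable {P : Prog m} {hm : 0 < m} {T : ℕ} {y : Fin (m + 2) → Bool} {w : Fin (m + 2) → ℕ}

theorem rr_succ_dst (P : Prog m) (hm : 0 < m) (t : ℕ) :
    rr P hm (t + 1) (P.dst (jt hm t)) = .inr (2 * t + 1) := by
  show (if _ then _ else _) = _
  rw [if_pos rfl]

theorem rr_succ_ne (P : Prog m) (hm : 0 < m) (t : ℕ) (v : Fin P.nodes)
    (h : v ≠ P.dst (jt hm t)) : rr P hm (t + 1) v = rr P hm t v := by
  show (if _ then _ else _) = _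
  rw [if_neg h]

theorem conv_inr (n g : ℕ) (h : g < n) : conv (m := m) n (.inr g) = .inr ⟨g, h⟩ := by
  simp only [conv, h, dif_pos]

theorem node_inl (C : Circuit (m + 2)) {g : Fin C.size} (i : Fin (m + 2)) :
    C.node (g := g) (.inl i) = .inl i := rfl

theorem has_mono_step {t : ℕ} {v : Fin P.nodes} {K : ℕ} (ht : t < T)
    (h : Has P hm T y w t v K) : Has P hm T y w (t + 1) v K := by
  obtain ⟨l, h1, h2⟩ := h
  refine ⟨l, ?_, h2⟩
  by_cases hv : v = P.dst (jt hm t)
  · subst hv
    have hlt : 2 * t + 1 < 2 * T := by omega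
    rw [rr_succ_dst, conv_inr _ _ hlt]
    refine Circuit.Just.or_true_left (gate_or P hm T t hlt) (just_conv hlt (fun g' hg' => ?_) h1)
    have := rr_lt P hm t _ g' hg'
    omega
  · rw [rr_succ_ne P hm t v hv]
    exact h1

theorem has_mono {t t' : ℕ} {v : Fin P.nodes} {K K' : ℕ} (htt : t ≤ t') (ht : t' ≤ T)
    (hK : K ≤ K') (h : Has P hm T y w t v K) : Has P hm T y w t' v K' := by
  induction t', htt using Nat.le_induction with
  | base =>
    obtain ⟨l, h1, h2⟩ := h
    exact ⟨l, h1, h2.trans hK⟩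
  | succ t' _ ih => exact has_mono_step (by omega) (ih (by omega))

theorem has_step {t : ℕ} {K : ℕ} (ht : t < T) (h : Has P hm T y w t (P.src (jt hm t)) K)
    (hy : y (Fin.castAdd 2 (jt hm t)) = true) :
    Has P hm T y w (t + 1) (P.dst (jt hm t)) (K + w (Fin.castAdd 2 (jt hm t))) := by
  obtain ⟨l, h1, h2⟩ := h
  have hlt0 : 2 * t < 2 * T := by omega
  have hlt : 2 * t + 1 < 2 * T := by omega
  refine ⟨l ++ [Fin.castAdd 2 (jt hm t)], ?_, ?_⟩
  · rw [rr_succ_dst, conv_inr _ _ hlt]
    refine Circuit.Just.or_true_right (gate_or P hm T t hlt) (just_conv hlt (fun g' hg' => ?_) ?_)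
    · rw [Sum.inr.injEq] at hg'
      omega
    rw [conv_inr _ _ hlt0]
    have h3 := Circuit.Just.leaf (C := circ P hm T) (y := y) (Fin.castAdd 2 (jt hm t))
    rw [hy] at h3
    exact Circuit.Just.and_true (gate_and P hm T t hlt0)
      (just_conv hlt0 (fun g' hg' => rr_lt P hm t _ g' hg') h1) h3
  · rw [List.map_append, List.sum_append, List.map_singleton, List.sum_singleton]
    omega

theorem jt_eq (hm : 0 < m) (i : ℕ) (j : Fin m) : jt hm (i * m + (j : ℕ)) = j := by
  apply Fin.ext
  show (i * m + (j : ℕ)) % m = (j : ℕ)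
  rw [Nat.add_comm, Nat.add_mul_mod_self_right, Nat.mod_eq_of_lt j.2]

/-- accepting paths become justification trees of the same weight -/
theorem has_path {u v : Fin P.nodes} {l : List (Fin m)}
    (h : P.Path (fun j => y (Fin.castAdd 2 j)) u l v) :
    ∀ (i K : ℕ), (i + l.length) * m ≤ T → Has P hm T y w (i * m) u K →
      Has P hm T y w ((i + l.length) * m) v (K + (l.map fun j => w (Fin.castAdd 2 j)).sum) := by
  induction h with
  | nil u =>
    intro i K _ h
    simpa using h
  | @cons j l v hj _ ih =>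
    intro i K hT h
    rw [List.length_cons] at hT
    have e1 : (i + (l.length + 1)) * m = (i + 1 + l.length) * m := by ring
    have h0 : (i + 1) * m ≤ T := le_trans (Nat.mul_le_mul_right m (by omega)) hT
    have h00 : i * m + m ≤ T := by
      rw [← Nat.succ_mul]; exact h0
    have hjm : (j : ℕ) < m := j.2
    have h1 : Has P hm T y w (i * m + (j : ℕ)) (P.src j) K :=
      has_mono (by omega) (by omega) le_rfl h
    have h2 : Has P hm T y w (i * m + (j : ℕ) + 1) (P.dst j) (K + w (Fin.castAdd 2 j)) := by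
      have h3 := has_step (P := P) (hm := hm) (T := T) (y := y) (w := w) (t := i * m + (j : ℕ))
        (K := K) (by omega)
      rw [jt_eq] at h3
      exact h3 h1 hj
    have h3 : Has P hm T y w ((i + 1) * m) (P.dst j) (K + w (Fin.castAdd 2 j)) := by
      refine has_mono ?_ h0 le_rfl h2
      rw [Nat.succ_mul]
      omega
    have h4 := ih (i + 1) _ (by rw [← e1]; exact hT) h3
    rw [List.length_cons, e1, List.map_cons, List.sum_cons, ← Nat.add_assoc]
    exact h4

theorem val_inr {N : ℕ} (C : Circuit N) (y : Fin N → Bool) (g : Fin C.size) :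
    C.val y (.inr g) = (C.gate g).eval (fun w => C.val y (C.node w)) := by
  have h : C.val y (.inr g) = C.gateVal y g g.2 := rfl
  rw [h, Circuit.gateVal]
  congr 1
  funext w
  rcases w with i | j
  · rfl
  · rfl

theorem val_or {N : ℕ} {C : Circuit N} {y : Fin N → Bool} {g : Fin C.size}
    {a b : Fin N ⊕ Fin (g : ℕ)} (h : C.gate g = .or a b) (h' : C.val y (.inr g) = true) :
    C.val y (C.node a) = true ∨ C.val y (C.node b) = true := by
  rw [val_inr, h] at h'
  change (C.val y (C.node a) || C.val y (C.node b)) = true at h'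
  rwa [Bool.or_eq_true] at h'

theorem val_and {N : ℕ} {C : Circuit N} {y : Fin N → Bool} {g : Fin C.size}
    {a b : Fin N ⊕ Fin (g : ℕ)} (h : C.gate g = .and a b) (h' : C.val y (.inr g) = true) :
    C.val y (C.node a) = true ∧ C.val y (C.node b) = true := by
  rw [val_inr, h] at h'
  change (C.val y (C.node a) && C.val y (C.node b)) = true at h'
  rwa [Bool.and_eq_true] at h'

/-- what the circuit accepts has an accepting path -/
theorem path_of_val (hT : y ⟨m + 1, by omega⟩ = false) :
    ∀ t ≤ T, ∀ v : Fin P.nodes, (circ P hm T).val y (conv (2 * T) (rr P hm t v)) = true →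
      ∃ l, P.Path (fun j => y (Fin.castAdd 2 j)) P.source l v := by
  intro t
  induction t with
  | zero =>
    intro _ v h
    by_cases hv : v = P.source
    · subst hv
      exact ⟨[], Prog.Path.nil _⟩
    · exfalso
      have h1 : rr P hm 0 v = .inl ⟨m + 1, by omega⟩ := by
        show (if _ then _ else _) = _
        rw [if_neg hv]
      rw [h1] at h
      change y ⟨m + 1, by omega⟩ = true at h
      rw [hT] at h
      exact Bool.noConfusion h
  | succ t ih =>
    intro ht v h
    by_cases hv : v = P.dst (jt hm t)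
    · subst hv
      have hlt0 : 2 * t < 2 * T := by omega
      have hlt : 2 * t + 1 < 2 * T := by omega
      rw [rr_succ_dst, conv_inr _ _ hlt] at h
      rcases val_or (gate_or P hm T t hlt) h with h | h
      · refine ih (by omega) _ (val_conv hlt (fun g' hg' => ?_) h)
        have := rr_lt P hm t _ g' hg'
        omega
      · have h' := val_conv hlt (fun g' hg' => by
          rw [Sum.inr.injEq] at hg'
          omega) h
        rw [conv_inr _ _ hlt0] at h'
        have h2 := val_and (gate_and P hm T t hlt0) h'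
        obtain ⟨l, hl⟩ := ih (by omega) _
          (val_conv hlt0 (fun g' hg' => rr_lt P hm t _ g' hg') h2.1)
        exact ⟨l ++ [jt hm t], hl.snoc h2.2⟩
    · rw [rr_succ_ne P hm t v hv] at h
      exact ih (by omega) v h

end Pool.Agent.NBP
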