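import Mathlib

/-! Nondeterministic branching programs and their accepting paths. -/

set_option autoImplicit false

namespace Pool.Agent.NBP

/-- A nondeterministic branching program with `m` contacts: a finite directed graph with a source
and a target; the contact `j` leads from the node `src j` to the node `dst j` (loops and parallel
contacts are allowed). On an input every contact is open or closed, according to its test. -/
structure Prog (m : ℕ) where
  /-- number of nodes -/
  nodes : ℕ
  /-- the source -/
  source : Fin nodes
  /-- the target -/
  target : Fin nodes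
  /-- the node where a contact begins -/
  src : Fin m → Fin nodes
  /-- the node where a contact ends -/
  dst : Fin m → Fin nodes

/-- `P.Path y u l v`: the contacts of the list `l` form, in this order, a directed path from the
node `u` to the node `v`, and all of them are closed (`y j = true`). -/
inductive Prog.Path {m : ℕ} (P : Prog m) (y : Fin m → Bool) :
    Fin P.nodes → List (Fin m) → Fin P.nodes → Prop
  | nil (u : Fin P.nodes) : Prog.Path P y u [] u
  | cons {j : Fin m} {l : List (Fin m)} {v : Fin P.nodes} :
      y j = true → Prog.Path P y (P.dst j) l v → Prog.Path P y (P.src j) (j :: l) v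

variable {m : ℕ} {P : Prog m} {y : Fin m → Bool}

theorem Prog.Path.append {u v w : Fin P.nodes} {a b : List (Fin m)}
    (h : P.Path y u a v) (h' : P.Path y v b w) : P.Path y u (a ++ b) w := by
  induction h with
  | nil u => exact h'
  | cons hj _ ih => exact Prog.Path.cons hj (ih h')

theorem Prog.Path.snoc {u : Fin P.nodes} {a : List (Fin m)} {j : Fin m}
    (h : P.Path y u a (P.src j)) (hj : y j = true) : P.Path y u (a ++ [j]) (P.dst j) :=
  h.append (Prog.Path.cons hj (Prog.Path.nil _))

theorem Prog.Path.suffix {a : List (Fin m)} : ∀ {u v : Fin P.nodes} {j : Fin m}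
    {c : List (Fin m)}, P.Path y u (a ++ j :: c) v → P.Path y (P.src j) (j :: c) v := by
  induction a with
  | nil =>
    intro u v j c h
    cases h with
    | cons hj h' => exact Prog.Path.cons hj h'
  | cons i a ih =>
    intro u v j c h
    cases h with
    | cons hj h' => exact ih h'

/-- a path can be replaced by a sublist without repeated contacts -/
theorem Prog.Path.nodup {u v : Fin P.nodes} {l : List (Fin m)} (h : P.Path y u l v) :
    ∃ l', P.Path y u l' v ∧ l'.Nodup ∧ l'.Sublist l := by
  induction h with
  | nil u => exact ⟨[], Prog.Path.nil u, List.nodup_nil, List.Sublist.refl _⟩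
  | @cons j l v hj _ ih =>
    obtain ⟨l', h1, h2, h3⟩ := ih
    by_cases hjl : j ∈ l'
    · obtain ⟨a, c, rfl⟩ := List.append_of_mem hjl
      have h4 : (j :: c).Sublist (a ++ j :: c) := List.sublist_append_right _ _
      exact ⟨j :: c, h1.suffix, h2.sublist h4, (h4.trans h3).trans (List.sublist_cons_self _ _)⟩
    · exact ⟨j :: l', Prog.Path.cons hj h1, List.nodup_cons.2 ⟨hjl, h2⟩, h3.cons_cons j⟩

theorem sum_le_of_sublist {α : Type*} (w : α → ℕ) {l l' : List α} (h : l'.Sublist l) :
    (l'.map w).sum ≤ (l.map w).sum := by
  induction h with
  | slnil => exact le_rfl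
  | cons a _ ih => simp only [List.map_cons, List.sum_cons]; omega
  | cons_cons a _ ih => simp only [List.map_cons, List.sum_cons]; omega

end Pool.Agent.NBP
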