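import Pool.Agent.NBP.Circ

/-! Every nondeterministic branching program with `m` contacts has a circuit with `2 m ^ 2` gates
whose justification trees are not heavier than its accepting paths. -/

set_option autoImplicit false

namespace Pool.Agent.NBP

open Pool.Agent.JT

theorem eq_of_nil {m : ℕ} {P : Prog m} {y : Fin m → Bool} {u v : Fin P.nodes}
    (h : P.Path y u [] v) : u = v := by
  cases h
  rfl

theorem exists_circ {m : ℕ} (P : Prog m) : ∃ C : Circuit (m + 2), C.size = 2 * (m * m) ∧
    ∀ (y : Fin (m + 2) → Bool) (w : Fin (m + 2) → ℕ), y ⟨m, by omega⟩ = true →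
      y ⟨m + 1, by omega⟩ = false → w ⟨m, by omega⟩ = 0 →
      (C.eval y = true → ∃ l, P.Path (fun j => y (Fin.castAdd 2 j)) P.source l P.target) ∧
      ∀ l, P.Path (fun j => y (Fin.castAdd 2 j)) P.source l P.target →
        ∃ l', C.Just y C.out true l' ∧
          (l'.map w).sum ≤ (l.map fun j => w (Fin.castAdd 2 j)).sum := by
  rcases Nat.eq_zero_or_pos m with rfl | hm
  · refine ⟨⟨0, fun g => g.elim0,
      .inl (if P.source = P.target then ⟨0, by omega⟩ else ⟨1, by omega⟩)⟩, rfl, ?_⟩
    intro y w h1 h2 h3
    constructor
    · intro h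
      by_cases hs : P.source = P.target
      · rw [← hs]
        exact ⟨[], Prog.Path.nil _⟩
      · exfalso
        change y (if P.source = P.target then ⟨0, by omega⟩ else ⟨1, by omega⟩) = true at h
        rw [if_neg hs] at h
        change y ⟨1, _⟩ = false at h2
        rw [h2] at h
        exact Bool.noConfusion h
    · intro l hl
      rcases l with _ | ⟨j, l⟩
      · have hs : P.source = P.target := eq_of_nil hl
        refine ⟨[⟨0, by omega⟩], ?_, ?_⟩
        · have h4 := Circuit.Just.leaf (C := (⟨0, fun g => g.elim0,
            .inl (if P.source = P.target then ⟨0, by omega⟩ else ⟨1, by omega⟩)⟩ :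
              Circuit (0 + 2))) (y := y) ⟨0, by omega⟩
          rw [h1] at h4
          simpa only [if_pos hs] using h4
        · simp only [List.map_cons, List.map_nil, List.sum_cons, List.sum_nil]
          exact h3.le
      · exact j.elim0
  · refine ⟨circ P hm (m * m), rfl, fun y w h1 h2 h3 => ⟨fun h => ?_, fun l hl => ?_⟩⟩
    · exact path_of_val h2 (m * m) le_rfl P.target h
    · obtain ⟨l', hl', hnd, hsub⟩ := hl.nodup
      have hlen : l'.length ≤ m := by
        have := hnd.length_le_card
        simpa using this
      have h0 : Has P hm (m * m) y w (0 * m) P.source 0 := by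
        refine ⟨[⟨m, by omega⟩], ?_, ?_⟩
        · have h4 := Circuit.Just.leaf (C := circ P hm (m * m)) (y := y) ⟨m, by omega⟩
          rw [h1] at h4
          have h5 : rr P hm (0 * m) P.source = .inl ⟨m, by omega⟩ := by
            rw [Nat.zero_mul]
            show (if _ then _ else _) = _
            rw [if_pos rfl]
          rw [h5]
          exact h4
        · simp only [List.map_cons, List.map_nil, List.sum_cons, List.sum_nil]
          exact h3.le
      have hT : (0 + l'.length) * m ≤ m * m := Nat.mul_le_mul_right m (by omega)
      have h6 := has_path (P := P) (hm := hm) (T := m * m) (w := w) hl' 0 0 hT h0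
      have h7 := has_mono hT le_rfl (le_refl _) h6
      obtain ⟨l'', h8, h9⟩ := h7
      refine ⟨l'', h8, h9.trans ?_⟩
      rw [Nat.zero_add]
      exact sum_le_of_sublist _ hsub

end Pool.Agent.NBP
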