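import Mathlib

/-! The choice of `k` for programs of length `N (log N) ^ δ`. -/

set_option autoImplicit false

namespace Pool.Agent.NBP

open Filter

theorem exists_k (c : ℕ) (ε : ℝ) (hε : 0 < ε) : ∃ N₀ : ℕ, ∀ N ≥ N₀, ∃ k : ℕ, 2 ≤ k ∧
    (Real.log N) ^ ((1 : ℝ) / (c + 1)) ≤ k ∧ 2 ^ (k ^ c) ≤ N ∧
    (N : ℝ) ^ (1 - ε) ≤ ((N / 2 ^ (k ^ c) : ℕ) : ℝ) := by
  set η : ℝ := min ε 1 / 2 with hη
  have hη0 : 0 < η := by
    have : 0 < min ε 1 := lt_min hε one_pos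
    positivity
  have hη1 : 2 * η ≤ 1 := by
    have : min ε 1 ≤ 1 := min_le_right _ _
    rw [hη]
    linarith
  have hηε : 2 * η ≤ ε := by
    have : min ε 1 ≤ ε := min_le_left _ _
    rw [hη]
    linarith
  have hc0 : (0 : ℝ) < c + 1 := by positivity
  have t1 : Tendsto (fun N : ℕ => Real.log (N : ℝ)) atTop atTop :=
    Real.tendsto_log_atTop.comp tendsto_natCast_atTop_atTop
  have t2 : Tendsto (fun N : ℕ => (Real.log (N : ℝ)) ^ ((1 : ℝ) / (c + 1))) atTop atTop :=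
    (tendsto_rpow_atTop (by positivity)).comp t1
  have t3 : Tendsto (fun N : ℕ => ((N : ℝ)) ^ η) atTop atTop :=
    (tendsto_rpow_atTop hη0).comp tendsto_natCast_atTop_atTop
  have key := (t1.eventually_ge_atTop 1).and ((t2.eventually_ge_atTop ((4 : ℝ) ^ c / η)).and
    ((t3.eventually_ge_atTop 2).and (eventually_ge_atTop 1)))
  obtain ⟨N₀, hN₀⟩ := eventually_atTop.1 key
  refine ⟨N₀, fun N hN => ?_⟩
  obtain ⟨h1, h2, h3, h4⟩ := hN₀ N hN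
  set x : ℝ := Real.log (N : ℝ) with hx
  set δ : ℝ := (1 : ℝ) / (c + 1) with hδ
  have hN1 : (1 : ℝ) ≤ N := by exact_mod_cast h4
  have hN0 : (0 : ℝ) < N := by linarith
  have hx0 : 0 < x := by linarith
  have hδ0 : 0 < δ := by positivity
  have hxd : 1 ≤ x ^ δ := Real.one_le_rpow h1 hδ0.le
  have hk1 : ((⌈x ^ δ⌉₊ + 2 : ℕ) : ℝ) ≤ 4 * x ^ δ := by
    have := Nat.ceil_lt_add_one (a := x ^ δ) (by linarith)
    push_cast
    linarith
  have hkc : (((⌈x ^ δ⌉₊ + 2 : ℕ) : ℝ)) ^ c ≤ η * x := by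
    have e1 : (((⌈x ^ δ⌉₊ + 2 : ℕ) : ℝ)) ^ c ≤ (4 * x ^ δ) ^ c :=
      pow_le_pow_left₀ (by positivity) hk1 c
    have e2 : (4 * x ^ δ) ^ c = 4 ^ c * x ^ (δ * c) := by
      rw [mul_pow, Real.rpow_mul hx0.le, Real.rpow_natCast]
    have e3 : δ + δ * c = 1 := by
      rw [hδ]
      field_simp
      ring
    have e4 : x = x ^ δ * x ^ (δ * c) := by
      rw [← Real.rpow_add hx0, e3, Real.rpow_one]
    have e5 : (4 : ℝ) ^ c ≤ η * x ^ δ := by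
      rw [div_le_iff₀ hη0] at h2
      linarith
    calc (((⌈x ^ δ⌉₊ + 2 : ℕ) : ℝ)) ^ c ≤ 4 ^ c * x ^ (δ * c) := e1.trans e2.le
      _ ≤ (η * x ^ δ) * x ^ (δ * c) := mul_le_mul_of_nonneg_right e5 (Real.rpow_nonneg hx0.le _)
      _ = η * (x ^ δ * x ^ (δ * c)) := by ring
      _ = η * x := by rw [← e4]
  set k : ℕ := ⌈x ^ δ⌉₊ + 2 with hk
  have hpow : ((2 ^ (k ^ c) : ℕ) : ℝ) ≤ (N : ℝ) ^ η := by
    have e1 : ((2 ^ (k ^ c) : ℕ) : ℝ) = Real.exp (Real.log 2 * ((k : ℝ) ^ c)) := by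
      have : ((2 ^ (k ^ c) : ℕ) : ℝ) = (2 : ℝ) ^ (((k ^ c : ℕ) : ℝ)) := by
        rw [Real.rpow_natCast]
        push_cast
        rfl
      rw [this, Real.rpow_def_of_pos (by norm_num)]
      push_cast
      rfl
    rw [e1, Real.rpow_def_of_pos hN0, Real.exp_le_exp, ← hx]
    have e2 : Real.log 2 ≤ 1 := by
      have := Real.log_two_lt_d9
      linarith
    have e3 : (0 : ℝ) ≤ (k : ℝ) ^ c := by positivity
    calc Real.log 2 * (k : ℝ) ^ c ≤ 1 * (k : ℝ) ^ c := mul_le_mul_of_nonneg_right e2 e3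
      _ = (k : ℝ) ^ c := one_mul _
      _ ≤ η * x := hkc
      _ = x * η := mul_comm _ _
  have hpos : (0 : ℝ) < ((2 ^ (k ^ c) : ℕ) : ℝ) := by positivity
  refine ⟨k, by omega, ?_, ?_, ?_⟩
  · have := Nat.le_ceil (x ^ δ)
    rw [hk]
    push_cast
    linarith
  · have e1 : (N : ℝ) ^ η ≤ (N : ℝ) ^ (1 : ℝ) :=
      Real.rpow_le_rpow_of_exponent_le hN1 (by linarith)
    rw [Real.rpow_one] at e1
    exact_mod_cast hpow.trans e1
  · have e1 : (N : ℝ) / ((2 ^ (k ^ c) : ℕ) : ℝ) < ((N / 2 ^ (k ^ c) : ℕ) : ℝ) + 1 := by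
      rw [div_lt_iff₀ hpos]
      have h5 : N < (N / 2 ^ (k ^ c) + 1) * 2 ^ (k ^ c) := by
        have h6 := Nat.div_add_mod N (2 ^ (k ^ c))
        have h7 := Nat.mod_lt N (show 0 < 2 ^ (k ^ c) by positivity)
        rw [add_mul, one_mul, mul_comm]
        omega
      exact_mod_cast h5
    have e2 : (N : ℝ) ^ (1 - η) ≤ (N : ℝ) / ((2 ^ (k ^ c) : ℕ) : ℝ) := by
      rw [le_div_iff₀ hpos]
      calc (N : ℝ) ^ (1 - η) * ((2 ^ (k ^ c) : ℕ) : ℝ) ≤ (N : ℝ) ^ (1 - η) * (N : ℝ) ^ η :=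
            mul_le_mul_of_nonneg_left hpow (Real.rpow_nonneg hN0.le _)
        _ = (N : ℝ) := by
            rw [← Real.rpow_add hN0]
            have : 1 - η + η = 1 := by ring
            rw [this, Real.rpow_one]
    have e3 : (N : ℝ) ^ (1 - η) = (N : ℝ) ^ η * (N : ℝ) ^ (1 - 2 * η) := by
      rw [← Real.rpow_add hN0]
      congr 1
      ring
    have e4 : 1 ≤ (N : ℝ) ^ (1 - 2 * η) := Real.one_le_rpow hN1 (by linarith)
    have e5 : (N : ℝ) ^ (1 - ε) ≤ (N : ℝ) ^ (1 - 2 * η) :=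
      Real.rpow_le_rpow_of_exponent_le hN1 (by linarith)
    have e6 : 2 * (N : ℝ) ^ (1 - 2 * η) ≤ (N : ℝ) ^ (1 - η) := by
      rw [e3]
      exact mul_le_mul_of_nonneg_right h3 (by linarith)
    linarith

end Pool.Agent.NBP
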