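import Pool.Agent.NBP.Main
import Pool.Agent.NBP.Numeric

/-! Programs of length `N (log N) ^ δ` whose contacts are labelled by literals. -/

set_option autoImplicit false

namespace Pool.Agent.NBP

open Pool.Agent.JT Pool.Agent.PQ44

/-- the value of the label of a contact: a contact without label is always closed, a contact with
the label `(i, b)` is closed if the variable `i` has the value `b` -/
def test {N : ℕ} (o : Option (Fin N × Bool)) (x : Fin N → Bool) : Bool :=
  match o with
  | none => true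
  | some (i, b) => x i == b

/-- the variables of a label -/
def vars {N : ℕ} (o : Option (Fin N × Bool)) : Finset (Fin N) :=
  match o with
  | none => ∅
  | some (i, _) => {i}

theorem test_congr {N : ℕ} (o : Option (Fin N × Bool)) (x y : Fin N → Bool)
    (h : ∀ i, i ∉ (Finset.univ : Finset (Fin N)) ∨ i ∈ vars o → x i = y i) :
    test o x = test o y := by
  rcases o with _ | ⟨i, b⟩
  · rfl
  · have h1 : x i = y i := h i (Or.inr (Finset.mem_singleton_self i))
    show (x i == b) = (y i == b)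
    rw [h1]

theorem card_vars {N : ℕ} (o : Option (Fin N × Bool)) :
    (vars o).card = if o.isSome then 1 else 0 := by
  rcases o with _ | ⟨i, b⟩
  · rfl
  · rfl

theorem sum_vars {N m : ℕ} (lab : Fin m → Option (Fin N × Bool)) (l : List (Fin m)) :
    (l.map (fun j => (vars (lab j)).card)).sum = l.countP (fun j => (lab j).isSome) := by
  induction l with
  | nil => rfl
  | cons j l ih =>
    rw [List.map_cons, List.sum_cons, ih, card_vars, List.countP_cons]
    omega

/-- Programs of superlinear length. -/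
theorem long : ∃ c : ℕ, (∀ ε : ℝ, 0 < ε → ∃ N₀ : ℕ, ∀ N ≥ N₀, ∀ (m : ℕ) (P : Prog m)
      (lab : Fin m → Option (Fin N × Bool)),
      (∀ x l, P.Path (fun j => test (lab j) x) P.source l P.target → LL (List.ofFn x)) →
      (∀ x, LL (List.ofFn x) → ∃ l, P.Path (fun j => test (lab j) x) P.source l P.target ∧
        (l.countP (fun j => (lab j).isSome) : ℝ) ≤
          N * (Real.log N) ^ ((1 : ℝ) / (c + 1))) →
      (2 : ℝ) ^ ((N : ℝ) ^ (1 - ε)) ≤ m) ∧
    ∀ k : ℕ, 2 ≤ k → ∃ π : List Bool, ∀ N : ℕ, 2 ^ (k ^ c) ≤ N →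
    ∀ (Y : Finset (Fin N)) (m : ℕ)
      (f : Fin m → (Fin N → Bool) → Bool) (W : Fin m → Finset (Fin N)),
      N ≤ k * Y.card → (∀ j, (W j).card * 2 ^ (k ^ c) ≤ N) →
      (∀ j x y, (∀ i, i ∉ Y ∨ i ∈ W j → x i = y i) → f j x = f j y) →
      (∀ P : Prog m,
        (∀ x l, P.Path (fun j => f j x) P.source l P.target → LL (List.ofFn x)) →
        {x : Fin N → Bool | π <+: List.ofFn x ∧ LL (List.ofFn x)}.ncard ≤
          2 ^ (N / 2 ^ (k ^ c)) * {x : Fin N → Bool | π <+: List.ofFn x ∧
            ∃ l, P.Path (fun j => f j x) P.source l P.target ∧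
              (l.map (fun j => (W j).card)).sum ≤ k * N}.ncard →
        2 ^ (N / 2 ^ (k ^ c)) ≤ m) ∧
      (∀ C : Circuit m,
        (∀ x, C.eval (fun j => f j x) = true → LL (List.ofFn x)) →
        {x : Fin N → Bool | π <+: List.ofFn x ∧ LL (List.ofFn x)}.ncard ≤
          2 ^ (N / 2 ^ (k ^ c)) * {x : Fin N → Bool | π <+: List.ofFn x ∧
            ∃ l, C.Just (fun j => f j x) C.out true l ∧
              (l.map (fun j => (W j).card)).sum ≤ k * N}.ncard →
        2 ^ (N / 2 ^ (k ^ c)) ≤ C.size) := by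
  obtain ⟨c, hc⟩ := main
  refine ⟨c, fun ε hε => ?_, hc⟩
  obtain ⟨N₀, hN₀⟩ := exists_k c ε hε
  refine ⟨N₀, fun N hN m P lab h1 h2 => ?_⟩
  obtain ⟨k, hk, hlog, hkN, hs⟩ := hN₀ N hN
  obtain ⟨π, hπ⟩ := hc k hk
  have h3 : 2 ^ (N / 2 ^ (k ^ c)) ≤ m := by
    refine (hπ N hkN Finset.univ m (fun j => test (lab j)) (fun j => vars (lab j)) ?_ ?_ ?_).1 P
      h1 ?_
    · rw [Finset.card_univ, Fintype.card_fin]
      exact Nat.le_mul_of_pos_left N (by omega)
    · intro j
      rw [card_vars]
      split_ifs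
      · rw [one_mul]
        exact hkN
      · rw [zero_mul]
        exact Nat.zero_le _
    · intro j x y hxy
      exact test_congr _ x y hxy
    · have hsub : {x : Fin N → Bool | π <+: List.ofFn x ∧ LL (List.ofFn x)} ⊆
          {x : Fin N → Bool | π <+: List.ofFn x ∧
            ∃ l, P.Path (fun j => test (lab j) x) P.source l P.target ∧
              (l.map (fun j => (vars (lab j)).card)).sum ≤ k * N} := by
        rintro x ⟨hx1, hx2⟩
        obtain ⟨l, hl, hlen⟩ := h2 x hx2
        refine ⟨hx1, l, hl, ?_⟩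
        rw [sum_vars]
        have h4 : (l.countP (fun j => (lab j).isSome) : ℝ) ≤ ((k * N : ℕ) : ℝ) := by
          refine hlen.trans ?_
          push_cast
          rw [mul_comm (k : ℝ)]
          exact mul_le_mul_of_nonneg_left hlog (Nat.cast_nonneg N)
        exact_mod_cast h4
      refine (Set.ncard_le_ncard hsub (Set.toFinite _)).trans ?_
      exact Nat.le_mul_of_pos_left _ (by positivity)
  calc (2 : ℝ) ^ ((N : ℝ) ^ (1 - ε)) ≤ (2 : ℝ) ^ (((N / 2 ^ (k ^ c) : ℕ) : ℝ)) :=
        Real.rpow_le_rpow_of_exponent_le (by norm_num) hs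
    _ = ((2 ^ (N / 2 ^ (k ^ c)) : ℕ) : ℝ) := by
        rw [Real.rpow_natCast]
        push_cast
        rfl
    _ ≤ m := by exact_mod_cast h3

end Pool.Agent.NBP
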