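import Pool.Agent.NBP.Exists
import Pool.Agent.PQ44.Final

/-! Nondeterministic branching programs for the language `LL`. -/

set_option autoImplicit false

namespace Pool.Agent.NBP

open Pool.Agent.JT Pool.Agent.PQ44

theorem exp_add_two {k c : ℕ} (hk : 2 ≤ k) : k ^ c + 3 ≤ k ^ (c + 2) := by
  have h1 : 1 ≤ k ^ c := Nat.one_le_pow _ _ (by omega)
  have h2 : 2 ^ 2 ≤ k ^ 2 := Nat.pow_le_pow_left hk 2
  have h3 : k ^ c * 2 ^ 2 ≤ k ^ (c + 2) := by
    rw [pow_add]
    exact Nat.mul_le_mul_left _ h2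
  omega

theorem div_bound {k c N : ℕ} (hk : 2 ≤ k) (hN : 2 ^ (k ^ (c + 2)) ≤ N) :
    2 * (N / 2 ^ (k ^ (c + 2))) + 1 < N / 2 ^ (k ^ c) := by
  have h0 : 0 < 2 ^ (k ^ c) := by positivity
  have h1 : 0 < 2 ^ (k ^ (c + 2)) := by positivity
  have h2 : 2 ^ (k ^ c) * 8 ≤ 2 ^ (k ^ (c + 2)) := by
    calc 2 ^ (k ^ c) * 8 = 2 ^ (k ^ c + 3) := by rw [pow_add]; norm_num
      _ ≤ 2 ^ (k ^ (c + 2)) := Nat.pow_le_pow_right (by norm_num) (exp_add_two hk)
  have h3 : 1 ≤ N / 2 ^ (k ^ (c + 2)) := (Nat.one_le_div_iff h1).2 hN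
  have h4 : N / 2 ^ (k ^ (c + 2)) * 2 ^ (k ^ (c + 2)) ≤ N := Nat.div_mul_le_self _ _
  have h5 : 8 * (N / 2 ^ (k ^ (c + 2))) ≤ N / 2 ^ (k ^ c) := by
    rw [Nat.le_div_iff_mul_le h0]
    calc 8 * (N / 2 ^ (k ^ (c + 2))) * 2 ^ (k ^ c)
        = N / 2 ^ (k ^ (c + 2)) * (2 ^ (k ^ c) * 8) := by ring
      _ ≤ N / 2 ^ (k ^ (c + 2)) * 2 ^ (k ^ (c + 2)) := Nat.mul_le_mul_left _ h2
      _ ≤ N := h4
  omega

theorem main : ∃ c : ℕ, ∀ k : ℕ, 2 ≤ k → ∃ π : List Bool, ∀ N : ℕ, 2 ^ (k ^ c) ≤ N →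
    ∀ (Y : Finset (Fin N)) (m : ℕ)
      (f : Fin m → (Fin N → Bool) → Bool) (W : Fin m → Finset (Fin N)),
      N ≤ k * Y.card → (∀ j, (W j).card * 2 ^ (k ^ c) ≤ N) →
      (∀ j x y, (∀ i, i ∉ Y ∨ i ∈ W j → x i = y i) → f j x = f j y) →
      (∀ P : Prog m,
        (∀ x l, P.Path (fun j => f j x) P.source l P.target → LL (List.ofFn x)) →
        {x : Fin N → Bool | π <+: List.ofFn x ∧ LL (List.ofFn x)}.ncard ≤
          2 ^ (N / 2 ^ (k ^ c)) * {x : Fin N → Bool | π <+: List.ofFn x ∧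
            ∃ l, P.Path (fun j => f j x) P.source l P.target ∧
              (l.map (fun j => (W j).card)).sum ≤ k * N}.ncard →
        2 ^ (N / 2 ^ (k ^ c)) ≤ m) ∧
      (∀ C : Circuit m,
        (∀ x, C.eval (fun j => f j x) = true → LL (List.ofFn x)) →
        {x : Fin N → Bool | π <+: List.ofFn x ∧ LL (List.ofFn x)}.ncard ≤
          2 ^ (N / 2 ^ (k ^ c)) * {x : Fin N → Bool | π <+: List.ofFn x ∧
            ∃ l, C.Just (fun j => f j x) C.out true l ∧
              (l.map (fun j => (W j).card)).sum ≤ k * N}.ncard →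
        2 ^ (N / 2 ^ (k ^ c)) ≤ C.size) := by
  classical
  obtain ⟨c, hc⟩ := circ_ncard
  refine ⟨c + 2, fun k hk => ?_⟩
  obtain ⟨π, _, h⟩ := hc k hk
  refine ⟨π, fun N hN Y m f W h1 h2 h3 => ?_⟩
  have hpow : 2 ^ (k ^ c) ≤ 2 ^ (k ^ (c + 2)) :=
    Nat.pow_le_pow_right (by norm_num) (by have := exp_add_two (c := c) hk; omega)
  have hN' : 2 ^ (k ^ c) ≤ N := hpow.trans hN
  have h2' : ∀ j, (W j).card * 2 ^ (k ^ c) ≤ N := fun j =>
    (Nat.mul_le_mul_left _ hpow).trans (h2 j)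
  have hs := div_bound (c := c) hk hN
  have hss : 2 ^ (N / 2 ^ (k ^ (c + 2))) ≤ 2 ^ (N / 2 ^ (k ^ c)) :=
    Nat.pow_le_pow_right (by norm_num) (by omega)
  refine ⟨fun P h4 h5 => ?_, fun C h4 h5 => ?_⟩
  · obtain ⟨C, hsize, hC⟩ := exists_circ P
    -- the inputs of the circuit: the tests and the two constants
    set f' : Fin (m + 2) → (Fin N → Bool) → Bool := fun j x =>
      if hj : (j : ℕ) < m then f ⟨j, hj⟩ x else decide ((j : ℕ) = m) with hf'
    set W' : Fin (m + 2) → Finset (Fin N) := fun j =>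
      if hj : (j : ℕ) < m then W ⟨j, hj⟩ else ∅ with hW'
    have e1 : ∀ x, (fun j : Fin m => f' (Fin.castAdd 2 j) x) = fun j => f j x := by
      intro x
      funext j
      have : ((Fin.castAdd 2 j : Fin (m + 2)) : ℕ) < m := j.2
      simp only [hf', this, dif_pos]
      rfl
    have e2 : ∀ j : Fin m, W' (Fin.castAdd 2 j) = W j := by
      intro j
      have : ((Fin.castAdd 2 j : Fin (m + 2)) : ℕ) < m := j.2
      simp only [hW', this, dif_pos]
      rfl
    have e3 : ∀ x, f' ⟨m, by omega⟩ x = true := by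
      intro x
      simp [hf']
    have e4 : ∀ x, f' ⟨m + 1, by omega⟩ x = false := by
      intro x
      simp [hf']
    have e5 : (W' ⟨m, by omega⟩).card = 0 := by
      simp [hW']
    have g2 : ∀ j, (W' j).card * 2 ^ (k ^ c) ≤ N := by
      intro j
      by_cases hj : (j : ℕ) < m
      · have : W' j = W ⟨j, hj⟩ := by simp only [hW', hj, dif_pos]
        rw [this]
        exact h2' _
      · have : W' j = ∅ := by simp only [hW', hj, dif_neg, not_false_eq_true]
        rw [this]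
        simp
    have g3 : ∀ j x y, (∀ i, i ∉ Y ∨ i ∈ W' j → x i = y i) → f' j x = f' j y := by
      intro j x y hxy
      by_cases hj : (j : ℕ) < m
      · have hw : W' j = W ⟨j, hj⟩ := by simp only [hW', hj, dif_pos]
        rw [hw] at hxy
        have hff : ∀ z, f' j z = f ⟨j, hj⟩ z := fun z => by simp only [hf', hj, dif_pos]
        rw [hff, hff]
        exact h3 _ x y hxy
      · have hff : ∀ z, f' j z = decide ((j : ℕ) = m) := fun z => by
          simp only [hf', hj, dif_neg, not_false_eq_true]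
        rw [hff, hff]
    have key : ∀ x, (C.eval (fun j => f' j x) = true →
        ∃ l, P.Path (fun j => f j x) P.source l P.target) ∧
        ∀ l, P.Path (fun j => f j x) P.source l P.target →
          ∃ l', C.Just (fun j => f' j x) C.out true l' ∧
            (l'.map (fun j => (W' j).card)).sum ≤ (l.map fun j => (W j).card).sum := by
      intro x
      have h6 := hC (fun j => f' j x) (fun j => (W' j).card) (e3 x) (e4 x) e5
      simp only [e1 x, e2] at h6
      exact h6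
    have h7 := h N hN' Y (m + 2) C f' W' h1 g2 g3
      (fun x hx => by
        obtain ⟨l, hl⟩ := (key x).1 hx
        exact h4 x l hl)
      (h5.trans (Nat.mul_le_mul hss (Set.ncard_le_ncard (fun x hx => by
        obtain ⟨hx1, l, hl, hlk⟩ := hx
        obtain ⟨l', hl', hlk'⟩ := (key x).2 l hl
        exact ⟨hx1, l', hl', hlk'.trans hlk⟩) (Set.toFinite _))))
    rw [hsize] at h7
    by_contra hlt
    rw [not_le] at hlt
    have h8 : m * m ≤ 2 ^ (N / 2 ^ (k ^ (c + 2))) * 2 ^ (N / 2 ^ (k ^ (c + 2))) :=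
      Nat.mul_le_mul hlt.le hlt.le
    have h9 : 2 * (m * m) ≤ 2 ^ (2 * (N / 2 ^ (k ^ (c + 2))) + 1) := by
      calc 2 * (m * m) ≤ 2 * (2 ^ (N / 2 ^ (k ^ (c + 2))) * 2 ^ (N / 2 ^ (k ^ (c + 2)))) :=
            Nat.mul_le_mul_left _ h8
        _ = 2 ^ (2 * (N / 2 ^ (k ^ (c + 2))) + 1) := by
            rw [← pow_add, ← two_mul, pow_succ]
            ring
    have h10 : 2 ^ (2 * (N / 2 ^ (k ^ (c + 2))) + 1) < 2 ^ (N / 2 ^ (k ^ c)) :=
      Nat.pow_lt_pow_right (by norm_num) hs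
    omega
  · exact hss.trans (h N hN' Y m C f W h1 h2' h3 h4 (h5.trans (Nat.mul_le_mul_right _ hss)))

end Pool.Agent.NBP
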